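import Mathlib

set_option autoImplicit false

/-!
# Every finitely generated integral domain has a d-`Σ_2` Scott sentence

Everything that the statement uses is defined in this file: the formulas of `L_{ω₁ω}` (`Frm`), their
satisfaction (`Frm.Realize`), the classes `Σ_α`, `Π_α` and d-`Σ_α` (`IsSigma`, `IsPi`, `IsDSigma`) and
Scott sentences (`IsScott`). Rings are structures for Mathlib's language of rings `(0, 1, +, -, ·)`.

The proof. Let `a` be a generating tuple of the domain `A` and let `θ` be the conjunction of all
(finitary) universal formulas true of `a`. If `a'` in `A` satisfies `θ` then `a ↦ a'` extends to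
an injective endomorphism `F` of `A`. The transcendence degree of `A` over the prime ring is finite,
so every `y` in `A` is algebraic over the image of `F`: it is a root of `F(p)` for some nonzero
polynomial `p` over `A`. By `θ` the polynomial `p` has at least as many roots in `A` as `F(p)`; so all the
roots of `F(p)` are images of roots of `p`, and `y` is in the image of `F`. Hence `a'` generates `A`.
So `A` is described by: some tuple satisfies `θ` (this is `Σ_2`), and every tuple which satisfies
`θ` generates the structure (this is `Π_2`).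
-/

namespace Pool.Agent.Results.MP_93e0ce_lc.DomainScottSentences

open FirstOrder FirstOrder.Language

universe u v

/-- Formulas of `L_{ω₁ω}` with the free variables `x_0, ..., x_{n-1}`: finitary quantifier-free
formulas are closed under negation, countable conjunctions and disjunctions, and quantifiers (over
the last variable). -/
inductive Frm (L : FirstOrder.Language.{0, 0}) : ℕ → Type
  | qf {n : ℕ} (φ : L.Formula (Fin n)) (h : φ.IsQF) : Frm L n
  | neg {n : ℕ} (φ : Frm L n) : Frm L n
  | conj {n : ℕ} (φ : ℕ → Frm L n) : Frm L n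
  | disj {n : ℕ} (φ : ℕ → Frm L n) : Frm L n
  | all {n : ℕ} (φ : Frm L (n + 1)) : Frm L n
  | ex {n : ℕ} (φ : Frm L (n + 1)) : Frm L n

/-- The satisfaction relation of `L_{ω₁ω}`. -/
def Frm.Realize {L : FirstOrder.Language.{0, 0}} (M : Type u) [L.Structure M] :
    {n : ℕ} → Frm L n → (Fin n → M) → Prop
  | _, .qf φ _, x => Formula.Realize φ x
  | _, .neg φ, x => ¬ φ.Realize M x
  | _, .conj φ, x => ∀ i, (φ i).Realize M x
  | _, .disj φ, x => ∃ i, (φ i).Realize M x
  | _, .all φ, x => ∀ a : M, φ.Realize M (Fin.snoc x a)
  | _, .ex φ, x => ∃ a : M, φ.Realize M (Fin.snoc x a)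

/-- A block of `k` existential quantifiers. -/
def Frm.exs {L : FirstOrder.Language.{0, 0}} {n : ℕ} : (k : ℕ) → Frm L (n + k) → Frm L n
  | 0, φ => φ
  | k + 1, φ => Frm.exs k (.ex φ)

/-- A block of `k` universal quantifiers. -/
def Frm.alls {L : FirstOrder.Language.{0, 0}} {n : ℕ} : (k : ℕ) → Frm L (n + k) → Frm L n
  | 0, φ => φ
  | k + 1, φ => Frm.alls k (.all φ)

/-- The conjunction of two formulas. -/
def Frm.and {L : FirstOrder.Language.{0, 0}} {n : ℕ} (φ ψ : Frm L n) : Frm L n :=
  .conj fun i => if i = 0 then φ else ψ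

mutual

/-- `Σ_α` formulas: finitary quantifier-free formulas are `Σ_0`; for `α > 0` the `Σ_α` formulas are
the countable disjunctions of formulas `∃ x̄ φ` with `φ` in `Π_β` for some `β < α`. -/
inductive IsSigma {L : FirstOrder.Language.{0, 0}} : Ordinal.{0} → {n : ℕ} → Frm L n → Prop
  | qf {n : ℕ} (φ : L.Formula (Fin n)) (h : φ.IsQF) : IsSigma 0 (.qf φ h)
  | disj {α : Ordinal.{0}} {n : ℕ} (k : ℕ → ℕ) (β : ℕ → Ordinal.{0}) (φ : ∀ i, Frm L (n + k i))
      (hβ : ∀ i, β i < α) (hφ : ∀ i, IsPi (β i) (φ i)) : IsSigma α (.disj fun i => .exs (k i) (φ i))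

/-- `Π_α` formulas: finitary quantifier-free formulas are `Π_0`; for `α > 0` the `Π_α` formulas are
the countable conjunctions of formulas `∀ x̄ φ` with `φ` in `Σ_β` for some `β < α`. -/
inductive IsPi {L : FirstOrder.Language.{0, 0}} : Ordinal.{0} → {n : ℕ} → Frm L n → Prop
  | qf {n : ℕ} (φ : L.Formula (Fin n)) (h : φ.IsQF) : IsPi 0 (.qf φ h)
  | conj {α : Ordinal.{0}} {n : ℕ} (k : ℕ → ℕ) (β : ℕ → Ordinal.{0}) (φ : ∀ i, Frm L (n + k i))
      (hβ : ∀ i, β i < α) (hφ : ∀ i, IsSigma (β i) (φ i)) : IsPi α (.conj fun i => .alls (k i) (φ i))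

end

/-- d-`Σ_α` formulas: the conjunctions of a `Σ_α` formula and a `Π_α` formula. -/
def IsDSigma {L : FirstOrder.Language.{0, 0}} (α : Ordinal.{0}) {n : ℕ} (χ : Frm L n) : Prop :=
  ∃ φ ψ : Frm L n, IsSigma α φ ∧ IsPi α ψ ∧ χ = φ.and ψ

/-- The sentence `χ` is a Scott sentence of `A`: its countable models are exactly the structures
isomorphic to `A`. -/
def IsScott {L : FirstOrder.Language.{0, 0}} (A : Type u) [L.Structure A] (χ : Frm L 0) : Prop :=
  ∀ (M : Type v) [L.Structure M] [Countable M],
    χ.Realize M Fin.elim0 ↔ Nonempty (L.Equiv M A)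

section basic

variable {L : FirstOrder.Language.{0, 0}} {M : Type u} [L.Structure M]

theorem snoc_append {n k : ℕ} (x : Fin n → M) (y : Fin k → M) (a : M) :
    (Fin.snoc (Fin.append x y) a : Fin (n + k + 1) → M) =
      Fin.append x (Fin.snoc y a : Fin (k + 1) → M) := by
  rw [Fin.append_snoc]

theorem realize_exs {n k : ℕ} (φ : Frm L (n + k)) (x : Fin n → M) :
    (Frm.exs k φ).Realize M x ↔ ∃ y : Fin k → M, φ.Realize M (Fin.append x y) := by
  induction k with
  | zero =>
    constructor
    · intro h
      refine ⟨Fin.elim0, ?_⟩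
      have : Fin.append x Fin.elim0 = x := by
        funext i
        exact Fin.append_left x Fin.elim0 i
      rw [this]
      exact h
    · rintro ⟨y, h⟩
      have : Fin.append x y = x := by
        funext i
        exact Fin.append_left x y i
      rw [this] at h
      exact h
  | succ k ih =>
    rw [Frm.exs, ih]
    constructor
    · rintro ⟨y, a, h⟩
      refine ⟨Fin.snoc y a, ?_⟩
      rw [← snoc_append]
      exact h
    · rintro ⟨y, h⟩
      refine ⟨Fin.init y, y (Fin.last k), ?_⟩
      rw [snoc_append, Fin.snoc_init_self]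
      exact h

theorem realize_alls {n k : ℕ} (φ : Frm L (n + k)) (x : Fin n → M) :
    (Frm.alls k φ).Realize M x ↔ ∀ y : Fin k → M, φ.Realize M (Fin.append x y) := by
  induction k with
  | zero =>
    constructor
    · intro h y
      have : Fin.append x y = x := by
        funext i
        exact Fin.append_left x y i
      rw [this]
      exact h
    · intro h
      have h := h Fin.elim0
      have : Fin.append x Fin.elim0 = x := by
        funext i
        exact Fin.append_left x Fin.elim0 i
      rw [this] at h
      exact h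
  | succ k ih =>
    rw [Frm.alls, ih]
    constructor
    · intro h y
      have h := h (Fin.init y) (y (Fin.last k))
      rw [snoc_append, Fin.snoc_init_self] at h
      exact h
    · intro h y a
      rw [snoc_append]
      exact h _

theorem realize_equiv {N : Type v} [L.Structure N] (e : L.Equiv M N) {n : ℕ} (φ : Frm L n)
    (x : Fin n → M) : φ.Realize M x ↔ φ.Realize N (e ∘ x) := by
  have key : ∀ {n : ℕ} (x : Fin n → M) (a : M), e ∘ (Fin.snoc x a : Fin (n + 1) → M) =
      Fin.snoc (e ∘ x) (e a) := by
    intro n x a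
    funext i
    refine Fin.lastCases ?_ (fun j => ?_) i
    · simp
    · simp
  induction φ with
  | qf φ h =>
    exact (StrongHomClass.realize_formula e φ).symm
  | neg φ ih => exact not_congr (ih x)
  | conj φ ih => exact forall_congr' fun i => ih i x
  | disj φ ih => exact exists_congr fun i => ih i x
  | all φ ih =>
    constructor
    · intro h b
      have := (ih _).1 (h (e.symm b))
      rw [key] at this
      simpa using this
    · intro h a
      refine (ih _).2 ?_
      rw [key]
      exact h _
  | ex φ ih =>
    constructor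
    · rintro ⟨a, h⟩
      refine ⟨e a, ?_⟩
      rw [← key]
      exact (ih _).1 h
    · rintro ⟨b, h⟩
      refine ⟨e.symm b, (ih _).2 ?_⟩
      rw [key]
      simpa using h

end basic

section gen

variable {L : FirstOrder.Language.{0, 0}} {A : Type u} [L.Structure A] {n : ℕ} {a : Fin n → A}

/-- `a` generates `A`. -/
def Gen (a : Fin n → A) : Prop := ∀ x : A, ∃ t : L.Term (Fin n), t.realize a = x

theorem exists_embedding {M : Type v} [L.Structure M] (ha : Gen (L := L) a) {b : Fin n → M}
    (hb : ∀ ψ : L.Formula (Fin n), ψ.IsQF → ψ.Realize a → ψ.Realize b) :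
    ∃ f : L.Embedding A M, ∀ t : L.Term (Fin n), f (t.realize a) = t.realize b := by
  have hb' : ∀ ψ : L.Formula (Fin n), ψ.IsQF → (ψ.Realize a ↔ ψ.Realize b) := by
    intro ψ hψ
    refine ⟨hb ψ hψ, fun h => ?_⟩
    by_contra hcon
    have h1 := hb ψ.not hψ.not (by rwa [Formula.realize_not])
    rw [Formula.realize_not] at h1
    exact h1 h
  have heq : ∀ s t : L.Term (Fin n), s.realize a = t.realize a ↔ s.realize b = t.realize b := by
    intro s t
    have := hb' (Term.equal s t) (BoundedFormula.IsAtomic.equal _ _).isQF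
    rwa [Formula.realize_equal, Formula.realize_equal] at this
  choose tm htm using ha
  have hf : ∀ t : L.Term (Fin n), (tm (t.realize a)).realize b = t.realize b := by
    intro t
    rw [← heq, htm]
  refine ⟨{ toFun := fun x => (tm x).realize b, inj' := ?_, map_fun' := ?_, map_rel' := ?_ }, hf⟩
  · intro x y hxy
    have hxy : (tm x).realize b = (tm y).realize b := hxy
    rw [← heq, htm, htm] at hxy
    exact hxy
  · intro m g xs
    have h1 : Structure.funMap g xs = (Term.func g (fun i => tm (xs i))).realize a := by
      rw [Term.realize_func]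
      congr 1
      funext i
      exact (htm _).symm
    change (tm (Structure.funMap g xs)).realize b = _
    rw [h1, hf, Term.realize_func]
    rfl
  · intro m r xs
    have := hb' (r.formula (fun i => tm (xs i))) (BoundedFormula.IsAtomic.rel _ _).isQF
    rw [Formula.realize_rel, Formula.realize_rel] at this
    have h2 : (fun i => (tm (xs i)).realize a) = xs := by
      funext i
      exact htm _
    rw [h2] at this
    exact this.symm

end gen

section scott

variable {L : FirstOrder.Language.{0, 0}} {A : Type u} [L.Structure A] {n : ℕ}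

/-- The tuple `b` of `M` satisfies all (finitary, prenex) universal formulas true of `a` in `A`. -/
def UnivLE {A : Type u} [L.Structure A] {M : Type v} [L.Structure M] {n : ℕ} (a : Fin n → A)
    (b : Fin n → M) : Prop :=
  ∀ (k : ℕ) (ψ : L.Formula (Fin (n + k))), ψ.IsQF →
    (∀ y : Fin k → A, ψ.Realize (Fin.append a y)) → ∀ y : Fin k → M, ψ.Realize (Fin.append b y)

/-- The universal formulas true of `a`. -/
abbrev UF (a : Fin n → A) : Type :=
  {p : Σ k, L.Formula (Fin (n + k)) // p.2.IsQF ∧ ∀ y : Fin p.1 → A, p.2.Realize (Fin.append a y)}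

instance (a : Fin n → A) : Nonempty (UF (L := L) a) :=
  ⟨⟨⟨0, ⊤⟩, BoundedFormula.IsQF.top, fun _ => by simp⟩⟩

theorem countable_formula (hL : L.card ≤ Cardinal.aleph0) (α : Type) [Countable α] :
    Countable (L.Formula α) := by
  have h1 : Countable (Σ n, L.BoundedFormula α n) := by
    rw [← Cardinal.mk_le_aleph0_iff]
    refine BoundedFormula.card_le.trans ?_
    rw [max_le_iff]
    refine ⟨le_rfl, ?_⟩
    rw [Cardinal.lift_id, Cardinal.lift_id]
    exact Cardinal.add_le_aleph0.2 ⟨Cardinal.mk_le_aleph0_iff.2 inferInstance, hL⟩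
  exact Function.Injective.countable (f := fun φ : L.Formula α =>
    (⟨0, φ⟩ : Σ n, L.BoundedFormula α n)) (by
      intro φ ψ h
      simpa using h)

theorem countable_term (hL : L.card ≤ Cardinal.aleph0) (α : Type) [Countable α] :
    Countable (L.Term α) := by
  have := countable_formula hL α
  refine Function.Injective.countable (f := fun t : L.Term α => (Term.equal t t : L.Formula α)) ?_
  intro s t h
  have h' : (Term.relabel Sum.inl s : L.Term (α ⊕ Fin 0)) = Term.relabel Sum.inl t := by
    simp only [Term.equal, Term.bdEqual] at h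
    injection h
  have h2 := congrArg (Term.relabel (Sum.elim id Fin.elim0)) h'
  rw [Term.relabel_relabel, Term.relabel_relabel, Sum.elim_comp_inl, Term.relabel_id,
    Term.relabel_id] at h2
  exact h2

theorem countable_UF (hL : L.card ≤ Cardinal.aleph0) (a : Fin n → A) :
    Countable (UF (L := L) a) := by
  have : ∀ k, Countable (L.Formula (Fin (n + k))) := fun k => countable_formula hL _
  unfold UF
  infer_instance

/-- the formula `θ`: all universal formulas true of `a` -/
noncomputable def theta (a : Fin n → A) (e : ℕ → UF (L := L) a) : Frm L n :=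
  .conj fun i => .alls (e i).1.1 (.qf (e i).1.2 (e i).2.1)

theorem isPi_theta (a : Fin n → A) (e : ℕ → UF (L := L) a) : IsPi 1 (theta a e) :=
  .conj (fun i => (e i).1.1) (fun _ => 0) (fun i => .qf (e i).1.2 (e i).2.1)
    (fun _ => zero_lt_one) (fun _ => .qf _ _)

theorem realize_theta {M : Type v} [L.Structure M] (a : Fin n → A) {e : ℕ → UF (L := L) a}
    (he : Function.Surjective e) (b : Fin n → M) :
    (theta a e).Realize M b ↔ UnivLE (L := L) a b := by
  constructor
  · intro h k ψ hψ ha y
    have h1 : ∀ p : UF (L := L) a, ∀ y : Fin p.1.1 → M, p.1.2.Realize (Fin.append b y) := by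
      intro p
      obtain ⟨i, rfl⟩ := he p
      exact (realize_alls _ _).1 (h i)
    exact h1 ⟨⟨k, ψ⟩, hψ, ha⟩ y
  · intro h i
    rw [realize_alls]
    intro y
    exact h _ _ (e i).2.1 (e i).2.2 y

/-- the matrix of the `Π_2` sentence -/
noncomputable def mat (a : Fin n → A) (i : UF (L := L) a ⊕ L.Term (Fin n)) :
    Σ k, {φ : L.Formula (Fin (n + 1 + k)) // φ.IsQF} :=
  match i with
  | .inl p => ⟨p.1.1, ((p.1.2.relabel (Fin.append (fun j => Fin.castAdd p.1.1 (Fin.castAdd 1 j))
      (fun j => Fin.natAdd (n + 1) j))).not), (p.2.1.relabel _).not⟩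
  | .inr t => ⟨0, Term.equal (Term.relabel (fun j => Fin.castAdd 0 (Fin.castAdd 1 j)) t)
      (Term.var (Fin.castAdd 0 (Fin.natAdd n 0))), (BoundedFormula.IsAtomic.equal _ _).isQF⟩

/-- the `Σ_1` formula `¬ θ(x) ∨ ⋁_t t(x) = y` -/
noncomputable def body (a : Fin n → A) (d : ℕ → UF (L := L) a ⊕ L.Term (Fin n)) : Frm L (n + 1) :=
  .disj fun i => .exs (mat a (d i)).1 (.qf (mat a (d i)).2.1 (mat a (d i)).2.2)

theorem isSigma_body (a : Fin n → A) (d : ℕ → UF (L := L) a ⊕ L.Term (Fin n)) :
    IsSigma 1 (body a d) :=
  .disj (fun i => (mat a (d i)).1) (fun _ => 0) (fun i => .qf (mat a (d i)).2.1 (mat a (d i)).2.2)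
    (fun _ => zero_lt_one) (fun _ => .qf _ _)

theorem realize_inl {M : Type v} [L.Structure M] {k : ℕ} (ψ : L.Formula (Fin (n + k)))
    (b : Fin n → M) (c : M) (y : Fin k → M) :
    ((ψ.relabel (Fin.append (fun j => Fin.castAdd k (Fin.castAdd 1 j))
      (fun j => Fin.natAdd (n + 1) j))).not).Realize
        (Fin.append (Fin.snoc b c : Fin (n + 1) → M) y) ↔ ¬ ψ.Realize (Fin.append b y) := by
  rw [Formula.realize_not, Formula.realize_relabel]
  refine not_congr (iff_of_eq ?_)
  congr 1
  funext j
  refine Fin.addCases (fun j => ?_) (fun j => ?_) j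
  · simp only [Function.comp, Fin.append_left]
    exact Fin.snoc_castSucc (α := fun _ => M) c b j
  · simp only [Function.comp, Fin.append_right]

theorem realize_inr {M : Type v} [L.Structure M] (t : L.Term (Fin n))
    (b : Fin n → M) (c : M) (y : Fin 0 → M) :
    (Term.equal (Term.relabel (fun j => Fin.castAdd 0 (Fin.castAdd 1 j)) t)
      (Term.var (Fin.castAdd 0 (Fin.natAdd n 0))) : L.Formula (Fin (n + 1 + 0))).Realize
        (Fin.append (Fin.snoc b c : Fin (n + 1) → M) y) ↔ t.realize b = c := by
  rw [Formula.realize_equal, Term.realize_relabel, Term.realize_var]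
  have e1 : (Fin.append (Fin.snoc b c : Fin (n + 1) → M) y) ∘
      (fun j => Fin.castAdd 0 (Fin.castAdd 1 j)) = b := by
    funext j
    simp only [Function.comp, Fin.append_left]
    exact Fin.snoc_castSucc (α := fun _ => M) c b j
  have e2 : (Fin.append (Fin.snoc b c : Fin (n + 1) → M) y)
      (Fin.castAdd 0 (Fin.natAdd n 0)) = c := by
    rw [Fin.append_left]
    exact Fin.snoc_last (α := fun _ => M) c b
  rw [e1, e2]

theorem realize_body {M : Type v} [L.Structure M] (a : Fin n → A)
    {d : ℕ → UF (L := L) a ⊕ L.Term (Fin n)} (hd : Function.Surjective d) (b : Fin n → M) (c : M) :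
    (body a d).Realize M (Fin.snoc b c) ↔
      (UnivLE (L := L) a b → ∃ t : L.Term (Fin n), t.realize b = c) := by
  have h1 : (body a d).Realize M (Fin.snoc b c) ↔ ∃ i : UF (L := L) a ⊕ L.Term (Fin n),
      ∃ y : Fin (mat a i).1 → M, (mat a i).2.1.Realize
        (Fin.append (Fin.snoc b c : Fin (n + 1) → M) y) := by
    constructor
    · rintro ⟨i, hi⟩
      exact ⟨d i, (realize_exs _ _).1 hi⟩
    · rintro ⟨i, hi⟩
      obtain ⟨j, rfl⟩ := hd i
      exact ⟨j, (realize_exs _ _).2 hi⟩
  rw [h1]
  have h2 : ∀ (p : UF (L := L) a) (y : Fin p.1.1 → M), (mat a (.inl p)).2.1.Realize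
        (Fin.append (Fin.snoc b c : Fin (n + 1) → M) y) ↔ ¬ p.1.2.Realize (Fin.append b y) :=
    fun p y => realize_inl p.1.2 b c y
  have h3 : ∀ (t : L.Term (Fin n)) (y : Fin 0 → M), (mat a (.inr t)).2.1.Realize
        (Fin.append (Fin.snoc b c : Fin (n + 1) → M) y) ↔ t.realize b = c :=
    fun t y => realize_inr t b c y
  constructor
  · rintro ⟨i, y, hy⟩ hb
    rcases i with p | t
    · exact absurd (hb _ _ p.2.1 p.2.2 y) ((h2 p y).1 hy)
    · exact ⟨t, (h3 t y).1 hy⟩
  · intro h
    by_cases hb : UnivLE (L := L) a b
    · obtain ⟨t, ht⟩ := h hb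
      exact ⟨.inr t, Fin.elim0, (h3 t _).2 ht⟩
    · unfold UnivLE at hb
      push Not at hb
      obtain ⟨k, ψ, hψ, ha, y, hy⟩ := hb
      exact ⟨.inl ⟨⟨k, ψ⟩, hψ, ha⟩, y, (h2 ⟨⟨k, ψ⟩, hψ, ha⟩ y).2 hy⟩

theorem exists_scott {n : ℕ} (hL : L.card ≤ Cardinal.aleph0) (a : Fin (0 + n) → A)
    (ha : Gen (L := L) a)
    (hrig : ∀ a' : Fin (0 + n) → A, UnivLE (L := L) a a' → Gen (L := L) a') :
    ∃ χ : Frm L 0, IsDSigma 2 χ ∧ IsScott.{u, v} A χ := by
  have c1 := countable_UF hL a
  have c2 : Countable (L.Term (Fin (0 + n))) := countable_term hL _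
  obtain ⟨e, he⟩ := exists_surjective_nat (UF (L := L) a)
  obtain ⟨d, hd⟩ := exists_surjective_nat (UF (L := L) a ⊕ L.Term (Fin (0 + n)))
  let S : Frm L 0 := .disj fun _ => .exs n (theta a e)
  let P : Frm L 0 := .conj fun _ => .alls (n + 1) (body a d)
  have hS : IsSigma 2 S := .disj (fun _ => n) (fun _ => 1) (fun _ => theta a e)
    (fun _ => one_lt_two) (fun _ => isPi_theta a e)
  have hP : IsPi 2 P := .conj (fun _ => n + 1) (fun _ => 1) (fun _ => body a d)
    (fun _ => one_lt_two) (fun _ => isSigma_body a d)
  have app : ∀ {M : Type v} (b : Fin (0 + n) → M),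
      ∃ y : Fin n → M, Fin.append (Fin.elim0 : Fin 0 → M) y = b := by
    intro M b
    refine ⟨fun j => b (Fin.natAdd 0 j), ?_⟩
    funext j
    refine Fin.addCases (fun j => j.elim0) (fun j => ?_) j
    rw [Fin.append_right]
  refine ⟨S.and P, ⟨S, P, hS, hP, rfl⟩, ?_⟩
  intro M _ _
  have e1 : (S.and P).Realize M Fin.elim0 ↔ S.Realize M Fin.elim0 ∧ P.Realize M Fin.elim0 := by
    constructor
    · intro h
      exact ⟨h 0, h 1⟩
    · rintro ⟨h1, h2⟩ i
      rcases i with _ | i
      · exact h1
      · exact h2
  have e2 : S.Realize M Fin.elim0 ↔ ∃ b : Fin (0 + n) → M, UnivLE (L := L) a b := by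
    constructor
    · rintro ⟨_, h⟩
      rw [realize_exs] at h
      obtain ⟨y, hy⟩ := h
      exact ⟨_, (realize_theta a he _).1 hy⟩
    · rintro ⟨b, hb⟩
      obtain ⟨y, rfl⟩ := app b
      exact ⟨0, (realize_exs _ _).2 ⟨y, (realize_theta a he _).2 hb⟩⟩
  have e3 : P.Realize M Fin.elim0 ↔ ∀ b : Fin (0 + n) → M, UnivLE (L := L) a b →
      Gen (L := L) b := by
    constructor
    · intro h b hb c
      have h1 := (realize_alls _ _).1 (h 0)
      obtain ⟨y, rfl⟩ := app b
      have h2 := h1 (Fin.snoc y c)
      have h3 : Fin.append (Fin.elim0 : Fin 0 → M) (Fin.snoc y c : Fin (n + 1) → M) =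
          Fin.snoc (Fin.append (Fin.elim0 : Fin 0 → M) y) c := (snoc_append _ _ _).symm
      rw [h3] at h2
      exact (realize_body a hd _ _).1 h2 hb
    · intro h _
      refine (realize_alls _ _).2 fun y => ?_
      have h3 : Fin.append (Fin.elim0 : Fin 0 → M) y =
          Fin.snoc (Fin.append (Fin.elim0 : Fin 0 → M) (Fin.init y)) (y (Fin.last n)) := by
        rw [snoc_append, Fin.snoc_init_self]
      rw [h3]
      exact (realize_body a hd _ _).2 fun hb => h _ hb _
  rw [e1, e2, e3]
  constructor
  · rintro ⟨⟨b, hb⟩, h⟩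
    have hbg := h b hb
    have hqf : ∀ ψ : L.Formula (Fin (0 + n)), ψ.IsQF → ψ.Realize a → ψ.Realize b := by
      intro ψ hψ ha'
      have := hb 0 ψ hψ (fun y => by
        have : Fin.append a y = a := by
          funext i
          exact Fin.append_left a y i
        rw [this]
        exact ha') Fin.elim0
      have h5 : Fin.append b Fin.elim0 = b := by
        funext i
        exact Fin.append_left b Fin.elim0 i
      rw [h5] at this
      exact this
    obtain ⟨f, hf⟩ := exists_embedding ha hqf
    have hsurj : Function.Surjective f := by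
      intro c
      obtain ⟨t, rfl⟩ := hbg c
      exact ⟨_, hf t⟩
    let E : L.Equiv A M :=
      { Equiv.ofBijective f ⟨f.injective, hsurj⟩ with
        map_fun' := fun g x => f.map_fun g x
        map_rel' := fun r x => f.map_rel r x }
    exact ⟨E.symm⟩
  · rintro ⟨g⟩
    have hA : ∀ b : Fin (0 + n) → M, UnivLE (L := L) a b ↔ UnivLE (L := L) a (g ∘ b) := by
      intro b
      have happ : ∀ {k : ℕ} (y : Fin k → M), g ∘ Fin.append b y = Fin.append (g ∘ b) (g ∘ y) := by
        intro k y
        funext j
        refine Fin.addCases (fun j => ?_) (fun j => ?_) j <;> simp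
      constructor
      · intro h k ψ hψ h1 y
        have h2 := h k ψ hψ h1 (g.symm ∘ y)
        rw [← StrongHomClass.realize_formula g, happ] at h2
        convert h2
        funext j
        simp
      · intro h k ψ hψ h1 y
        have h2 := h k ψ hψ h1 (g ∘ y)
        rw [← happ, StrongHomClass.realize_formula g] at h2
        exact h2
    have hG : ∀ b : Fin (0 + n) → M, Gen (L := L) (g ∘ b) → Gen (L := L) b := by
      intro b h c
      obtain ⟨t, ht⟩ := h (g c)
      refine ⟨t, g.injective ?_⟩
      rw [← ht, HomClass.realize_term]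
    refine ⟨⟨g.symm ∘ a, (hA _).2 ?_⟩, fun b hb => hG b (hrig _ ((hA b).1 hb))⟩
    have h6 : g ∘ (g.symm ∘ a) = a := by
      funext j
      simp
    rw [h6]
    intro k ψ _ h
    exact h

end scott

/-- An injective endomorphism of a finitely generated domain makes it algebraic over the image. -/
theorem algebraic_of_injective {A : Type u} [CommRing A] [IsDomain A] (hA : Algebra.FiniteType ℤ A)
    (F : A →+* A) (hF : Function.Injective F) (y : A) :
    ∃ p : Polynomial A, p ≠ 0 ∧ Polynomial.eval₂ F y p = 0 := by
  -- the prime subring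
  let R : Subring A := ⊥
  let S : Subring A := F.range
  have hRS : R ≤ S := bot_le
  have hfix : ∀ r : R, F r = r := by
    rintro ⟨r, hr⟩
    obtain ⟨n, rfl⟩ := (Subring.mem_bot).1 hr
    simp
  let _ : Algebra R S := (Subring.inclusion hRS).toAlgebra
  have : IsScalarTower R S A := IsScalarTower.of_algebraMap_eq fun _ => rfl
  have hfin : Algebra.FiniteType R A := by
    have : IsScalarTower ℤ R A := inferInstance
    exact Algebra.FiniteType.of_restrictScalars_finiteType ℤ R A
  have hlt : Algebra.trdeg R A < Cardinal.aleph0 := trdeg_lt_aleph0_of_finiteType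
  -- `A ≃ S` over `R`
  let e : A ≃ₐ[R] S :=
    { RingEquiv.ofBijective F.rangeRestrict ⟨fun a b h => hF (by simpa using congrArg Subtype.val h),
        F.rangeRestrict_surjective⟩ with
      commutes' := fun r => by
        apply Subtype.ext
        exact hfix r }
  have htr : Algebra.trdeg R S = Algebra.trdeg R A := e.symm.trdeg_eq
  have : FaithfulSMul R S := (faithfulSMul_iff_algebraMap_injective R S).2
    (Subring.inclusion_injective hRS)
  have hsum := trdeg_add_eq R S (A := A)
  rw [htr] at hsum
  have h0 : Algebra.trdeg S A = 0 := by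
    have h1 : Algebra.trdeg R A + Algebra.trdeg S A = Algebra.trdeg R A + 0 := by
      rw [hsum, add_zero]
    exact Cardinal.eq_of_add_eq_add_left h1 hlt
  have halg : Algebra.IsAlgebraic S A := (trdeg_eq_zero_iff (R := S) (A := A)).1 h0
  obtain ⟨q, hq0, hq⟩ := halg.isAlgebraic y
  refine ⟨q.map (e.symm : S →+* A), ?_, ?_⟩
  · exact (Polynomial.map_ne_zero_iff e.symm.injective).2 hq0
  · rw [Polynomial.eval₂_map]
    rw [Polynomial.aeval_def] at hq
    have hc : F.comp (e.symm : S →+* A) = algebraMap S A := by
      refine RingHom.ext fun s => ?_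
      obtain ⟨x, rfl⟩ := e.surjective s
      change F (e.symm (e x)) = _
      rw [e.symm_apply_apply]
      rfl
    rw [hc]
    exact hq

/-- finite conjunctions -/
def conjList {α : Type} (l : List (Language.ring.Formula α)) : Language.ring.Formula α :=
  l.foldr (· ⊓ ·) ⊤

theorem isQF_conjList {α : Type} (l : List (Language.ring.Formula α)) (h : ∀ φ ∈ l, φ.IsQF) :
    (conjList l).IsQF := by
  induction l with
  | nil => exact BoundedFormula.IsQF.top
  | cons φ l ih =>
    exact (h φ (by simp)).inf (ih fun ψ hψ => h ψ (by simp [hψ]))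

theorem realize_conjList {α : Type} {M : Type u} [Language.ring.Structure M]
    (l : List (Language.ring.Formula α)) (v : α → M) :
    (conjList l).Realize v ↔ ∀ φ ∈ l, φ.Realize v := by
  induction l with
  | nil => simp [conjList]
  | cons φ l ih =>
    have : conjList (φ :: l) = φ ⊓ conjList l := rfl
    rw [this, Formula.realize_inf, ih]
    simp

section dom

variable {A : Type u} [CommRing A] [Ring.CompatibleRing A] {n : ℕ}

theorem exists_free {a : Fin n → A} (ha : Gen (L := Language.ring) a) (x : A) :
    ∃ c : FreeCommRing (Fin n), FreeCommRing.lift a c = x := by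
  obtain ⟨t, rfl⟩ := ha x
  induction t with
  | var i => exact ⟨FreeCommRing.of i, by simp⟩
  | func f ts ih =>
    choose c hc using ih
    cases f with
    | add =>
      refine ⟨c 0 + c 1, ?_⟩
      rw [map_add, hc, hc]
      simp [Term.realize]
    | mul =>
      refine ⟨c 0 * c 1, ?_⟩
      rw [map_mul, hc, hc]
      simp [Term.realize]
    | neg =>
      refine ⟨- c 0, ?_⟩
      rw [map_neg, hc]
      simp [Term.realize]
    | zero => exact ⟨0, by simp [Term.realize]⟩
    | one => exact ⟨1, by simp [Term.realize]⟩

/-- the polynomial with the coefficients `c i`, at the variable `j` -/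
noncomputable def polyAt {n m : ℕ} (N : ℕ) (c : ℕ → FreeCommRing (Fin n)) (j : Fin m) :
    FreeCommRing (Fin (n + m)) :=
  ∑ i ∈ Finset.range N, FreeCommRing.lift (fun l => FreeCommRing.of (Fin.castAdd m l)) (c i) *
    FreeCommRing.of (Fin.natAdd n j) ^ i

theorem lift_polyAt {m : ℕ} (N : ℕ) (c : ℕ → FreeCommRing (Fin n)) (j : Fin m) (b : Fin n → A)
    (z : Fin m → A) : FreeCommRing.lift (Fin.append b z) (polyAt N c j) =
      ∑ i ∈ Finset.range N, FreeCommRing.lift b (c i) * z j ^ i := by
  unfold polyAt
  rw [map_sum]
  refine Finset.sum_congr rfl fun i _ => ?_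
  rw [map_mul, map_pow, FreeCommRing.lift_of, Fin.append_right]
  congr 1
  have : (FreeCommRing.lift (Fin.append b z)).comp
      (FreeCommRing.lift (fun l => FreeCommRing.of (Fin.castAdd m l))) = FreeCommRing.lift b := by
    refine FreeCommRing.hom_ext fun l => ?_
    simp
  exact congrArg (fun g : FreeCommRing (Fin n) →+* A => g (c i)) this

/-- the discriminant of the variables `z` -/
noncomputable def disc (n m : ℕ) : FreeCommRing (Fin (n + m)) :=
  ∏ i : Fin m, ∏ j : Fin m, if i = j then 1 else
    FreeCommRing.of (Fin.natAdd n i) - FreeCommRing.of (Fin.natAdd n j)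

theorem lift_disc {m : ℕ} (b : Fin n → A) (z : Fin m → A) :
    FreeCommRing.lift (Fin.append b z) (disc n m) =
      ∏ i : Fin m, ∏ j : Fin m, if i = j then 1 else z i - z j := by
  unfold disc
  rw [map_prod]
  refine Finset.prod_congr rfl fun i _ => ?_
  rw [map_prod]
  refine Finset.prod_congr rfl fun j _ => ?_
  split_ifs
  · exact map_one _
  · rw [map_sub, FreeCommRing.lift_of, FreeCommRing.lift_of, Fin.append_right, Fin.append_right]

/-- the equation `c = 0` -/
noncomputable def eqz {α : Type} (c : FreeCommRing α) : Language.ring.Formula α :=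
  Term.equal (Ring.termOfFreeCommRing c) (Ring.termOfFreeCommRing 0)

theorem isQF_eqz {α : Type} (c : FreeCommRing α) : (eqz c).IsQF :=
  (BoundedFormula.IsAtomic.equal _ _).isQF

theorem realize_eqz {α : Type} (c : FreeCommRing α) (v : α → A) :
    (eqz c).Realize v ↔ FreeCommRing.lift v c = 0 := by
  unfold eqz
  rw [Formula.realize_equal, Ring.realize_termOfFreeCommRing, Ring.realize_termOfFreeCommRing,
    map_zero]

theorem gen_of_univLE [IsDomain A] (hA : Algebra.FiniteType ℤ A) {a a' : Fin n → A}
    (ha : Gen (L := Language.ring) a) (h : UnivLE (L := Language.ring) a a') :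
    Gen (L := Language.ring) a' := by
  classical
  have hqf : ∀ ψ : Language.ring.Formula (Fin n), ψ.IsQF → ψ.Realize a → ψ.Realize a' := by
    intro ψ hψ ha'
    have := h 0 ψ hψ (fun y => by
      have : Fin.append a y = a := by
        funext i
        exact Fin.append_left a y i
      rw [this]
      exact ha') Fin.elim0
    have h5 : Fin.append a' Fin.elim0 = a' := by
      funext i
      exact Fin.append_left a' Fin.elim0 i
    rw [h5] at this
    exact this
  obtain ⟨f, hf⟩ := exists_embedding ha hqf
  let F : A →+* A :=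
    { toFun := f
      map_one' := by
        have := f.map_fun (Ring.oneFunc) ![]
        simpa using this
      map_mul' := fun x y => by
        have := f.map_fun (Ring.mulFunc) ![x, y]
        simpa using this
      map_zero' := by
        have := f.map_fun (Ring.zeroFunc) ![]
        simpa using this
      map_add' := fun x y => by
        have := f.map_fun (Ring.addFunc) ![x, y]
        simpa using this }
  have hFinj : Function.Injective F := f.injective
  have hFlift : ∀ c : FreeCommRing (Fin n), F (FreeCommRing.lift a c) =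
      FreeCommRing.lift a' c := by
    intro c
    have h1 := hf (Ring.termOfFreeCommRing c)
    rw [Ring.realize_termOfFreeCommRing, Ring.realize_termOfFreeCommRing] at h1
    exact h1
  intro y
  obtain ⟨p, hp0, hpy⟩ := algebraic_of_injective hA F hFinj y
  set q := p.map F with hq
  have hq0 : q ≠ 0 := (Polynomial.map_ne_zero_iff hFinj).2 hp0
  choose c hc using fun i => exists_free ha (p.coeff i)
  have hval : ∀ z : A, ∑ i ∈ Finset.range (p.natDegree + 1), FreeCommRing.lift a (c i) * z ^ i =
      p.eval z := by
    intro z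
    rw [Polynomial.eval_eq_sum_range]
    exact Finset.sum_congr rfl fun i _ => by rw [hc]
  have hval' : ∀ z : A, ∑ i ∈ Finset.range (p.natDegree + 1), FreeCommRing.lift a' (c i) * z ^ i =
      q.eval z := by
    intro z
    rw [hq, Polynomial.eval_map, Polynomial.eval₂_eq_sum_range]
    exact Finset.sum_congr rfl fun i _ => by rw [← hFlift, hc]
  -- the number of roots of `q` in `A`
  set m := q.roots.toFinset.card with hm
  have hcard : m ≤ p.roots.toFinset.card := by
    let Φ : Language.ring.Formula (Fin (n + m)) :=
      conjList ((eqz (disc n m)).not :: (List.ofFn fun j : Fin m =>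
        eqz (polyAt (p.natDegree + 1) c j)))
    have hΦ : Φ.IsQF := by
      refine isQF_conjList _ ?_
      intro φ hφ
      rw [List.mem_cons] at hφ
      rcases hφ with rfl | hφ
      · exact (isQF_eqz _).not
      · rw [List.mem_ofFn] at hφ
        obtain ⟨j, rfl⟩ := hφ
        exact isQF_eqz _
    have hreal : ∀ (b : Fin n → A) (z : Fin m → A), Φ.Realize (Fin.append b z) ↔
        ((∏ i : Fin m, ∏ j : Fin m, if i = j then 1 else z i - z j) ≠ 0 ∧
        ∀ j, ∑ i ∈ Finset.range (p.natDegree + 1), FreeCommRing.lift b (c i) * z j ^ i = 0) := by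
      intro b z
      rw [realize_conjList, List.forall_mem_cons, Formula.realize_not, realize_eqz, lift_disc]
      refine and_congr Iff.rfl ?_
      simp only [List.mem_ofFn, forall_exists_index, forall_apply_eq_imp_iff]
      refine forall_congr' fun j => ?_
      rw [realize_eqz, lift_polyAt]
    let en : Fin m ≃ q.roots.toFinset := (Finset.equivFin _).symm
    have h1 : Φ.Realize (Fin.append a' (fun j => (en j : A))) := by
      rw [hreal]
      constructor
      · rw [Finset.prod_ne_zero_iff]
        intro i _
        rw [Finset.prod_ne_zero_iff]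
        intro j _
        split_ifs with hij
        · exact one_ne_zero
        · rw [sub_ne_zero]
          intro heq
          exact hij (en.injective (Subtype.ext heq))
      · intro j
        rw [hval']
        have := (en j).2
        rw [Multiset.mem_toFinset, Polynomial.mem_roots hq0] at this
        exact this
    have h2 : ∃ z : Fin m → A, Φ.Realize (Fin.append a z) := by
      by_contra hcon
      push Not at hcon
      have h3 := h m Φ.not hΦ.not (fun z => by
        rw [Formula.realize_not]
        exact hcon z) (fun j => (en j : A))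
      rw [Formula.realize_not] at h3
      exact h3 h1
    obtain ⟨z, hz⟩ := h2
    rw [hreal] at hz
    obtain ⟨hz1, hz2⟩ := hz
    have hinj : Function.Injective z := by
      intro i j hij
      by_contra hne
      rw [Finset.prod_ne_zero_iff] at hz1
      have := hz1 i (Finset.mem_univ _)
      rw [Finset.prod_ne_zero_iff] at this
      have := this j (Finset.mem_univ _)
      rw [if_neg hne, hij, sub_self] at this
      exact this rfl
    have : Finset.univ.image z ⊆ p.roots.toFinset := by
      intro x hx
      rw [Finset.mem_image] at hx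
      obtain ⟨j, -, rfl⟩ := hx
      rw [Multiset.mem_toFinset, Polynomial.mem_roots hp0]
      change p.eval (z j) = 0
      rw [← hval]
      exact hz2 j
    have h4 := Finset.card_le_card this
    rwa [Finset.card_image_of_injective _ hinj, Finset.card_univ, Fintype.card_fin] at h4
  have himg : p.roots.toFinset.image F = q.roots.toFinset := by
    refine Finset.eq_of_subset_of_card_le ?_ ?_
    · intro x hx
      rw [Finset.mem_image] at hx
      obtain ⟨w, hw, rfl⟩ := hx
      rw [Multiset.mem_toFinset, Polynomial.mem_roots hp0] at hw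
      rw [Multiset.mem_toFinset, Polynomial.mem_roots hq0]
      change q.eval (F w) = 0
      rw [hq, Polynomial.eval_map, Polynomial.eval₂_at_apply, hw.eq_zero, map_zero]
    · rw [Finset.card_image_of_injective _ hFinj]
      exact hcard
  have hy : y ∈ q.roots.toFinset := by
    rw [Multiset.mem_toFinset, Polynomial.mem_roots hq0]
    change q.eval y = 0
    rw [hq, Polynomial.eval_map]
    exact hpy
  rw [← himg, Finset.mem_image] at hy
  obtain ⟨x, -, rfl⟩ := hy
  obtain ⟨t, rfl⟩ := ha x
  exact ⟨t, (hf t).symm⟩

end dom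

open Classical in
/-- Finitely generated structures in the language of rings are finitely generated rings. -/
theorem finiteType_of_fg {A : Type u} [CommRing A] [Ring.CompatibleRing A]
    {n : ℕ} {a : Fin n → A} (ha : Gen (L := Language.ring) a) : Algebra.FiniteType ℤ A := by
  refine ⟨⟨Finset.univ.image a, ?_⟩⟩
  rw [eq_top_iff]
  intro x _
  obtain ⟨t, rfl⟩ := ha x
  induction t with
  | var i => exact Algebra.subset_adjoin (by simp)
  | func f ts ih =>
    cases f with
    | add => simpa [Term.realize] using add_mem (ih 0 trivial) (ih 1 trivial)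
    | mul => simpa [Term.realize] using mul_mem (ih 0 trivial) (ih 1 trivial)
    | neg => simpa [Term.realize] using neg_mem (ih 0 trivial)
    | zero => simp [Term.realize]
    | one => simp [Term.realize]

theorem exists_gen {A : Type u} [Language.ring.Structure A] (hA : Structure.FG Language.ring A) :
    ∃ (n : ℕ) (a : Fin (0 + n) → A), Gen (L := Language.ring) a := by
  obtain ⟨S, hS, hcl⟩ := Structure.fg_iff.1 hA
  have : Finite S := hS
  obtain ⟨n, ⟨e⟩⟩ := Finite.exists_equiv_fin S
  refine ⟨n, fun i => (e.symm (Fin.cast (zero_add n) i) : A), fun x => ?_⟩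
  have hx : x ∈ Substructure.closure Language.ring S := by
    rw [hcl]
    trivial
  obtain ⟨t, ht⟩ := Substructure.mem_closure_iff_exists_term.1 hx
  refine ⟨t.relabel (fun s => Fin.cast (zero_add n).symm (e s)), ?_⟩
  rw [Term.realize_relabel, ← ht]
  congr 1
  funext s
  simp

/-- **Every finitely generated integral domain has a d-`Σ_2` Scott sentence.** -/
theorem result (A : Type u) [CommRing A] [IsDomain A] [Ring.CompatibleRing A]
    (hA : Structure.FG Language.ring A) :
    ∃ χ : Frm Language.ring 0, IsDSigma 2 χ ∧ IsScott.{u, v} A χ := by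
  obtain ⟨n, a, ha⟩ := exists_gen hA
  refine exists_scott ?_ a ha (fun a' h => gen_of_univLE (finiteType_of_fg ha) ha h)
  rw [Ring.card_ring]
  exact_mod_cast (Cardinal.natCast_lt_aleph0 (n := 5)).le

end Pool.Agent.Results.MP_93e0ce_lc.DomainScottSentences
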